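import Pool.Agent.Q195.RZ.Main

set_option autoImplicit false

/-!
# Real zeros of the coefficients of `1 / (Q(t) + z t ^ r)`

All zeros of the coefficients are positive real numbers, for every `r ≥ 0`.
-/

open Polynomial

namespace Pool.Agent.Results.MP_60133c_an.ZerosPositive

/-- The coefficient of `t ^ m` in the power series expansion in `t` of `1 / (Q(t) + z t ^ r)`,
a rational function of `z`. -/
noncomputable def P (Q : ℝ[X]) (r m : ℕ) : RatFunc ℝ :=
  PowerSeries.coeff m (((Q.map (algebraMap ℝ (RatFunc ℝ)) : (RatFunc ℝ)[X]) :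
    PowerSeries (RatFunc ℝ)) + PowerSeries.C RatFunc.X * PowerSeries.X ^ r)⁻¹

/-- Let `Q` be a nonconstant real polynomial all of whose complex zeros are positive real numbers,
with `Q(0) > 0`.  For all `r` and `m`, all complex zeros of `P_m` (of its reduced numerator) are
positive real numbers; for `r ≥ 1`, `P_m` is a polynomial. -/
theorem result (Q : ℝ[X]) (hd : 0 < Q.natDegree)
    (hS : ∀ a : ℂ, aeval a Q = 0 → a.im = 0 ∧ 0 < a.re) (h0 : 0 < Q.eval 0) (r m : ℕ) :
    (1 ≤ r → ∃ p : ℝ[X], P Q r m = algebraMap ℝ[X] (RatFunc ℝ) p) ∧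
      ∀ z : ℂ, aeval z (P Q r m).num = 0 → z.im = 0 ∧ 0 < z.re := by
  constructor
  · intro hr
    obtain ⟨p, hp, _⟩ := Q195.RZ.mainA hd hS h0 hr m
    exact ⟨p, hp⟩
  · intro z hz
    rcases Nat.eq_zero_or_pos r with h1 | h1
    · subst h1
      obtain ⟨p, D, hD, hp, hz2⟩ := Q195.RZ.mainB hd hS h0 m
      refine hz2 z ?_
      have hdvd : (P Q 0 m).num ∣ p := by
        have h3 := RatFunc.num_div_dvd p hD
        have h4 : P Q 0 m = algebraMap ℝ[X] (RatFunc ℝ) p / algebraMap ℝ[X] (RatFunc ℝ) D := hp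
        rw [h4]
        exact h3
      obtain ⟨c, hc⟩ := hdvd
      rw [hc, map_mul, hz, zero_mul]
    · obtain ⟨p, hp, hz2⟩ := Q195.RZ.mainA hd hS h0 h1 m
      refine hz2 z ?_
      have h4 : P Q r m = algebraMap ℝ[X] (RatFunc ℝ) p := hp
      rw [h4, RatFunc.num_algebraMap] at hz
      exact hz

end Pool.Agent.Results.MP_60133c_an.ZerosPositive
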